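import Pool.Agent.Y28.BG.Stm

/-!
# A local Gaussian ring modulo its nilradical is a valuation domain
-/

set_option autoImplicit false

open Polynomial

namespace Pool.Agent.Y547.BG

variable {R : Type} [CommRing R]

theorem key (hG : Pool.Agent.Y28.BG.Gauss R) (f g : R[X]) (I : Ideal R)
    (h : ∀ n, (f * g).coeff n ∈ I) (i j : ℕ) : f.coeff i * g.coeff j ∈ I := by
  have h1 : f.coeff i * g.coeff j ∈
      Ideal.span (Set.range f.coeff) * Ideal.span (Set.range g.coeff) :=
    Ideal.mul_mem_mul (Ideal.subset_span ⟨i, rfl⟩) (Ideal.subset_span ⟨j, rfl⟩)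
  rw [← hG f g] at h1
  refine (Ideal.span_le.mpr ?_) h1
  rintro _ ⟨n, rfl⟩
  exact h n

theorem quad (I : Ideal R) (p : R[X]) (u v w : R) (hp : p = C u + C v * X + C w * X ^ 2)
    (hu : u ∈ I) (hv : v ∈ I) (hw : w ∈ I) (n : ℕ) : p.coeff n ∈ I := by
  subst hp
  simp only [coeff_add, coeff_C, coeff_C_mul, coeff_X, coeff_X_pow]
  refine I.add_mem (I.add_mem ?_ ?_) ?_
  · split_ifs
    · exact hu
    · exact I.zero_mem
  · split_ifs
    · simpa using hv
    · simp
  · split_ifs
    · simpa using hw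
    · simp

theorem s1 (hG : Pool.Agent.Y28.BG.Gauss R) (a b : R) :
    ∃ x y : R, a * b = x * a ^ 2 + y * b ^ 2 := by
  have h := key hG (C a + C b * X) (C a + C (-b) * X) (Ideal.span {a ^ 2, b ^ 2})
    (quad _ _ (a ^ 2) 0 (-(b ^ 2)) (by simp only [map_pow, map_neg, map_zero]; ring)
      (Ideal.subset_span (by simp)) (Ideal.zero_mem _)
      ((Ideal.neg_mem_iff _).mpr (Ideal.subset_span (by simp)))) 0 1
  have h' : a * b ∈ Ideal.span {a ^ 2, b ^ 2} := by
    have e : (C a + C b * X : R[X]).coeff 0 * (C a + C (-b) * X : R[X]).coeff 1 = -(a * b) := by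
      simp [coeff_C]
    rw [e] at h
    exact (Ideal.neg_mem_iff _).mp h
  rw [Ideal.mem_span_pair] at h'
  obtain ⟨x, y, e⟩ := h'
  exact ⟨x, y, e.symm⟩

theorem s3 (hG : Pool.Agent.Y28.BG.Gauss R) (a b : R) :
    ∃ p s : R, a ^ 2 = p * (a * b) + s * (a ^ 2 + b ^ 2) := by
  have h := key hG (C a + C b * X) (C b + C a * X) (Ideal.span {a * b, a ^ 2 + b ^ 2})
    (quad _ _ (a * b) (a ^ 2 + b ^ 2) (a * b)
      (by simp only [map_mul, map_add, map_pow]; ring)
      (Ideal.subset_span (by simp)) (Ideal.subset_span (by simp))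
      (Ideal.subset_span (by simp))) 0 1
  have h' : a ^ 2 ∈ Ideal.span {a * b, a ^ 2 + b ^ 2} := by
    have e : (C a + C b * X : R[X]).coeff 0 * (C b + C a * X : R[X]).coeff 1 = a ^ 2 := by
      simp [coeff_C, sq]
    rw [e] at h
    exact h
  rw [Ideal.mem_span_pair] at h'
  obtain ⟨x, y, e⟩ := h'
  exact ⟨x, y, e.symm⟩

theorem s2 (hG : Pool.Agent.Y28.BG.Gauss R) (a b x y : R) (hxy : a * b = x * a ^ 2 + y * b ^ 2) :
    ∃ r : R, y * a * b = r * a ^ 2 := by
  have h := key hG (C (-b) + C a * X) (C (-(a - y * b)) + C (y * a) * X) (Ideal.span {a ^ 2})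
    (quad _ _ (x * a ^ 2) (-(a ^ 2)) (y * a ^ 2)
      (by
        have e : x * a ^ 2 = b * (a - y * b) := by linear_combination (-1 : R) * hxy
        rw [e]
        simp only [map_mul, map_neg, map_pow, map_sub]; ring)
      (Ideal.mul_mem_left _ _ (Ideal.subset_span (by simp)))
      ((Ideal.neg_mem_iff _).mpr (Ideal.subset_span (by simp)))
      (Ideal.mul_mem_left _ _ (Ideal.subset_span (by simp)))) 0 1
  have h' : y * a * b ∈ Ideal.span {a ^ 2} := by
    have e : (C (-b) + C a * X : R[X]).coeff 0 *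
        (C (-(a - y * b)) + C (y * a) * X : R[X]).coeff 1 = -(y * a * b) := by
      simp [coeff_C]; ring
    rw [e] at h
    exact (Ideal.neg_mem_iff _).mp h
  rw [Ideal.mem_span_singleton'] at h'
  obtain ⟨r, e⟩ := h'
  exact ⟨r, e.symm⟩

theorem prime [IsLocalRing R] (hG : Pool.Agent.Y28.BG.Gauss R) : (nilradical R).IsPrime := by
  have hrad : (nilradical R).IsRadical := Ideal.radical_isRadical (⊥ : Ideal R)
  constructor
  · intro h
    have h1 : (1 : R) ∈ nilradical R := h ▸ Submodule.mem_top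
    rw [mem_nilradical] at h1
    obtain ⟨n, hn⟩ := h1
    rw [one_pow] at hn
    exact one_ne_zero hn
  · intro a g hag
    obtain ⟨p, s, e⟩ := s3 hG a g
    have hN : ∀ z : R, z * (a * g) ∈ nilradical R := fun z => Ideal.mul_mem_left _ z hag
    have h1 : (1 - s) * a ^ 4 ∈ nilradical R := by
      have : (1 - s) * a ^ 4 = (p * a ^ 2 + s * (a * g)) * (a * g) := by
        linear_combination (a ^ 2) * e
      rw [this]; exact hN _
    have h2 : s * g ^ 4 ∈ nilradical R := by
      have : s * g ^ 4 = ((1 - s) * (a * g) - p * g ^ 2) * (a * g) := by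
        linear_combination (-(g ^ 2)) * e
      rw [this]; exact hN _
    rcases IsLocalRing.isUnit_or_isUnit_one_sub_self s with hs | hs
    · right
      obtain ⟨u, rfl⟩ := hs
      have h3 : g ^ 4 ∈ nilradical R := by
        have := Ideal.mul_mem_left (nilradical R) (↑(u⁻¹) : R) h2
        rwa [← mul_assoc, Units.inv_mul, one_mul] at this
      exact hrad ⟨4, h3⟩
    · left
      obtain ⟨u, hu⟩ := hs
      rw [← hu] at h1
      have h3 : a ^ 4 ∈ nilradical R := by
        have := Ideal.mul_mem_left (nilradical R) (↑(u⁻¹) : R) h1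
        rwa [← mul_assoc, Units.inv_mul, one_mul] at this
      exact hrad ⟨4, h3⟩

/-- A local Gaussian ring modulo its nilradical is a valuation domain. -/
theorem gv : Pool.Agent.Y28.BG.S_GV := by
  intro R _ _ hG
  have hP := prime hG
  refine ⟨hP, fun a b => ?_⟩
  by_cases ha : a ∈ nilradical R
  · right
    exact ⟨0, by simpa using ha⟩
  obtain ⟨x, y, hxy⟩ := s1 hG a b
  obtain ⟨r, hr⟩ := s2 hG a b x y hxy
  have h0 : a * (y * b - r * a) = 0 := by linear_combination hr
  have hac : a * ((1 - r) * b - x * a) = b * (y * b - r * a) := by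
    linear_combination hxy
  have hsq : (a * ((1 - r) * b - x * a)) ^ 2 = 0 := by
    have : (a * ((1 - r) * b - x * a)) ^ 2 =
        (a * (y * b - r * a)) * (b * ((1 - r) * b - x * a)) := by
      linear_combination (a * ((1 - r) * b - x * a)) * hac
    rw [this, h0, zero_mul]
  have hmem : a * ((1 - r) * b - x * a) ∈ nilradical R := by
    rw [mem_nilradical]; exact ⟨2, hsq⟩
  have hc : (1 - r) * b - x * a ∈ nilradical R := (hP.mem_or_mem hmem).resolve_left ha
  rcases IsLocalRing.isUnit_or_isUnit_one_sub_self r with hu | hu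
  · right
    obtain ⟨u, rfl⟩ := hu
    refine ⟨(↑(u⁻¹) : R) * y, ?_⟩
    have h1 : a * (b * ((↑(u⁻¹) : R) * y) - a) ∈ nilradical R := by
      have : a * (b * ((↑(u⁻¹) : R) * y) - a) = 0 := by
        have hi : (↑(u⁻¹) : R) * (u : R) = 1 := Units.inv_mul u
        linear_combination (↑(u⁻¹) : R) * hr + a ^ 2 * hi
      rw [this]; exact Ideal.zero_mem _
    exact (hP.mem_or_mem h1).resolve_left ha
  · left
    obtain ⟨u, hu⟩ := hu
    refine ⟨(↑(u⁻¹) : R) * x, ?_⟩
    have h1 : a * ((↑(u⁻¹) : R) * x) - b = -((↑(u⁻¹) : R) * ((1 - r) * b - x * a)) := by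
      have hi : (↑(u⁻¹) : R) * (u : R) = 1 := Units.inv_mul u
      rw [← hu]
      linear_combination b * hi
    rw [h1]
    exact (Ideal.neg_mem_iff _).mpr (Ideal.mul_mem_left _ _ hc)

end Pool.Agent.Y547.BG
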